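import Mathlib
import Pool.Agent.H542R2.HS.All

/-!
Gap hitting set (weighted satisfiability of monotone CNF): for almost every system of `m` sets in
`k` groups no `log N / 2` sets cover the `N` elements, but refutations of the statement that `k`
sets, one from every group, cover all elements, whose lines are arbitrary formulas of size
`O (k log m)` about the chosen sets, have at least `m ^ (c k)` lines.
-/

namespace Pool.Agent.Results.MP_39539f_lc.GapHittingSet

open H542.HS

open Classical in
/-- For all `C`, `a` there are `c > 0` and `m0` such that for `m = k * 2 ^ b ≥ m0` sets in `k`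
groups, `1 ≤ k ≤ m ^ c`, and `N` elements, `m ^ 2 ≤ N ≤ 2 ^ (m ^ c)`, `4 ^ K ≤ N`: all but a
fraction `2 ^ (-m ^ c)` of the set systems `X` have the following two properties.  No `K` of the
`m` sets cover the elements, and every refutation of the statement that one can choose one set
from every group such that the chosen `k` sets cover all elements, whose lines are formulas of
size at most `C * (k * b)` about the chosen sets and whose inferences use at most `a` earlier
lines and at most `c * k * log m` elements, has at least `m ^ (c k)` lines. -/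
theorem result (C a : ℕ) : ∃ c : ℝ, 0 < c ∧ ∃ m0 : ℕ, ∀ k b m N K : ℕ,
      m = k * 2 ^ b → m0 ≤ m → 1 ≤ k → (k : ℝ) ≤ (m : ℝ) ^ c → m ^ 2 ≤ N →
      (N : ℝ) ≤ (2 : ℝ) ^ ((m : ℝ) ^ c) → 4 ^ K ≤ N →
      ((Finset.univ.filter fun X : Fin N → Sets k b → Bool =>
        ¬ (NoCover X K ∧ ∀ u S : ℕ, (u : ℝ) ≤ c * (k * Real.logb 2 m) →
          Nonempty (Refutation X a u (C * (k * b)) S) → (m : ℝ) ^ (c * k) ≤ S)).card : ℝ) ≤
        (2 : ℝ) ^ (-(m : ℝ) ^ c) * Fintype.card (Fin N → Sets k b → Bool) :=
  final h_and h_good h_gap h_loc h_numg C a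

end Pool.Agent.Results.MP_39539f_lc.GapHittingSet
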