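import Pool.Agent.H679R2.WH.Final

/-!
# The weighted satisfiability hierarchy is strict for circuits with few negations

For every level `t = d + 1 ≥ 1`: no circuits of AND and OR gates of size `F(k) n ^ c` with, in
addition, arbitrary gates such that the product of the numbers (fan-in + 1) is at most
`n ^ ((t + 1) (1 - 1 / q))` (for example at most `(1 - 1 / q) (t + 1) log₂ n` NOT gates) compute a
reduction from `p-WSAT(Γ_{t+1,1})` to `p-WSAT(Γ_{t,1})` (to `p-WSAT(Γ_{1,2})` if `t = 1`),
whatever the bound on the target parameter.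
-/

set_option autoImplicit false

namespace Pool.Agent.Results.MP_39539f_lc.NegationLimitedHierarchy

open Pool.Agent.H679R2.WH Pool.Agent.H520R2.NM

theorem result : ∀ d c q : ℕ, 1 ≤ q → ∃ k : ℕ, ∀ F g : ℕ, ∃ n0 : ℕ, ∀ n ≥ n0,
    ∀ g' ≤ g, ∀ A N : ℕ, A ≤ F * n ^ c → N ≤ F * n ^ c →
    ∀ (M : ℕ) (C : Circuit (CIdx n n (d + 1)) M) (out : TIdx A N d → Wire (CIdx n n (d + 1)) M),
      C.size ≤ F * n ^ c →
      (C.fanins.map (· + 1)).prod ^ q ≤ n ^ ((d + 2) * (q - 1)) →
      ¬ ∀ x : CIdx n n (d + 1) → Bool, OneSigned x →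
        (WSat (d + 1) k x ↔ TSat g' d (fun o => (out o).eval x (C.vals x))) :=
  fun d c q hq => all_levels d c q hq

end Pool.Agent.Results.MP_39539f_lc.NegationLimitedHierarchy
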