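import Pool.Agent.H583R2.WS.Main

set_option autoImplicit false

/-!
# `W[SAT]` is not contained in `AW[*]` relative to a random oracle
-/

namespace Pool.Agent.Results.MP_39539f_lc.RandomOracle

open Pool.Agent.H628R3.RO Pool.Agent.H583R2.WS

/-- For almost every oracle `A`: the class `W[SAT]` relative to `A` is not contained in the class
`AW[*]` relative to `A`, even if arbitrary functions of the parameter are allowed in the definition
of `AW[*]`. -/
theorem result : ∀ᵐ A ∂randomOracle, ¬ WSAT A ⊆ AWN A :=
  main

end Pool.Agent.Results.MP_39539f_lc.RandomOracle
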