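import Pool.Agent.H550R2.WH.Up3
import Pool.Agent.H550R2.WH.Three

set_option autoImplicit false

/-! Symmetric reductions: weighted satisfiability at the third level does not reduce to the second
level. -/

namespace Pool.Agent.Results.MP_39539f_lc.SymmetricThirdLevel

open Finset Pool.Agent.H550R2.Lift Pool.Agent.H550R2.Lin Pool.Agent.H550R2.WH

theorem result :
    -- no reduction to queries with one alternation
    (∀ (c d u : ℕ) (f g : ℕ → ℕ) (κ : ℕ),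
      18 * ((c * (d + 1) + 1) * ((u + 1) * (c + 1))) ≤ κ + 1 →
      ∃ B, ∀ b, B ≤ b → ∀ (Λ Y : Type) [Fintype Λ] [Fintype Y],
        Fintype.card Y ≤ f (κ + 1) * ((κ + 1) * 2 ^ b) ^ c →
        ∀ F : SRed (Ver (κ + 1) b × Sets (Fin ((κ + 1) * b + 2) ⊕ Fin (2 ^ b) × Fin (2 * b)) κ)
          (Idx (Fin ((κ + 1) * b + 2) ⊕ Fin (2 ^ b) × Fin (2 * b)) κ b) Λ Y d pS,
          F.Equivariant → F.size ≤ f (κ + 1) * ((κ + 1) * 2 ^ b) ^ c →
          ∀ ψ : (Λ → (Fin d → Fin (g (κ + 1)) ⊕ Fin u) → Bool) → Prop,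
            ¬ ∀ E, Sig2 ψ (F.out (inc E)) ↔ Third E) ∧
    -- the problem is a query with two alternations
    (∀ (κ b : ℕ), 1 ≤ b →
      ∃ F : SRed (Ver (κ + 1) b × Sets (Fin ((κ + 1) * b + 2) ⊕ Fin (2 ^ b) × Fin (2 * b)) κ)
          (Idx (Fin ((κ + 1) * b + 2) ⊕ Fin (2 ^ b) × Fin (2 * b)) κ b) (Fin (κ + 1) ⊕ Fin 3)
          (Uni (Fin ((κ + 1) * b + 2) ⊕ Fin (2 ^ b) × Fin (2 * b)) κ b) 2 pS,
        F.Equivariant ∧ F.size = 0 ∧
        ∃ ψ : ((Fin (κ + 1) ⊕ Fin 3) → (Fin 2 → Fin (κ + 1) ⊕ (Fin 1 ⊕ Fin 1)) → Bool) → Prop,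
          ∀ E, Sig3 ψ (F.out (inc E)) ↔ Third E) := by
  refine ⟨w3_w2, ?_⟩
  intro κ b hb
  haveI : Nonempty (Fin (2 * b)) := ⟨⟨0, by omega⟩⟩
  exact ⟨redT, redT_equiv, redT_size, psiT, redT_third⟩

end Pool.Agent.Results.MP_39539f_lc.SymmetricThirdLevel
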